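import Pool.Agent.R929.SL.Full

/-!
# Derived invariance of the support loci `V^i(ω)` for `i ≤ 2`

Let `X`, `Y` be smooth projective complex varieties of dimension `n` with `D(X) ≃ D(Y)`.

* `FullLoci n` consists of the points of `Pic⁰(X)` with the Zariski topology and, for every `α`, the
  cohomology of `X` with values in `α` (`Twisted n`, starting library): the groups
  `H^{p,q} = H^q(X, Ω^p ⊗ α)`, with hard Lefschetz theorem, Hodge–Riemann relations and the product with
  `c₁`.  `V i` is the locus `V^i(ω_X)` of the `α` with `H^i(X, ω_X ⊗ α) ≠ 0`.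
* `FullRouquier A B`: the Rouquier isomorphism `F : Aut⁰(X) × Pic⁰(X) ≃ Aut⁰(Y) × Pic⁰(Y)` gives an
  isomorphism `e` of the closed subgroups `S`, `T` of the `α` and `β` with `F (1, α) = (1, β)`.  If
  `Aut⁰(X)` is affine then so is `Aut⁰(Y)` and `e : Pic⁰(X) ≃ Pic⁰(Y)` is defined everywhere (Popa and
  Schnell).  For torsion points the equivalence lifts to the étale coverings of `X` and `Y` given by
  `α` and `β = e α`, and induces an isomorphism of the cohomologies with values in `α` and `β`, which
  preserves `p - q` and the Mukai pairing (`Transform`).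

Theorem: `e` maps `V^i(ω_X)` onto `V^i(ω_Y)` if these loci are contained in `S` and `T`
(`FullRouquier.Matches`), so these loci are isomorphic (as `e` is an isomorphism of algebraic groups),

* for `i ≤ 2` and `i ≥ n`, for every `n`; in particular for all `i` if `n ≤ 3`, and for `i ≠ 3` if
  `n = 4`;
* for all `i`, for every `n`, if `K` or `-K` (`L = s c₁`) is semiample and the pluricanonical
  morphism has defect of semismallness at most two, for instance equidimensional fibres of dimension
  at most two (`DefectTwo`, theorems of de Cataldo and Migliorini for the local system `α`).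

The proof is that of `MP_abca3a_ag.IndexAtMostTwo` for all components in place of those through the
origin.
-/

namespace Pool.Agent.Results.MP_9b4f74_ag.IndexAtMostTwo

open Pool.Agent.TH125.Tw Pool.Agent.R929.SL Pool.Agent.R929.OD

/-- **Theorem.** -/
theorem result {n : ℕ} (A B : FullLoci n) (F : FullRouquier A B) :
    (∀ i : ℕ, i ≤ 2 ∨ n ≤ i → F.Matches i) ∧
    (∀ s : ℤ, (∀ α ∈ A.tors, DefectTwo (A.coh α) (s • (A.coh α).chern)) →
      (∀ β ∈ B.tors, DefectTwo (B.coh β) (s • (B.coh β).chern)) → ∀ i : ℕ, F.Matches i) :=
  ⟨fun _ hi => full_low F hi, fun s hA hB i => full_defect F s hA hB i⟩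

end Pool.Agent.Results.MP_9b4f74_ag.IndexAtMostTwo
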